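import Mathlib
import Pool.Agent.N183.U9.RB7
import Pool.Agent.N183.U9.L3

/-!
# Tate classes on all powers of `A × B`, for an arbitrary abelian variety `B`

Let `X` be an abelian variety over a number field, or a finitely generated field of characteristic
zero, which is isogenous to `A × B`, where `A` and `B` have no common simple factor over `ℂ`. Suppose
that each simple factor `Y` of `A` over `ℂ` is of one of the following kinds (`GoodI`).

* `RealOdd`: `Y` is of Albert type I or II (the endomorphism algebra is a totally real field or a
  totally indefinite quaternion algebra), and the relative dimension (the quotient of the dimension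
  by the degree of a totally real maximal subfield) is odd or at most three. For example, `Y` may be
  an elliptic curve without complex multiplication, a simple abelian surface not of CM type, or an
  abelian variety of odd dimension with `End(Y) = ℤ`.
* `Y` is of Albert type I or II (`RealMax`) and satisfies `GalMultTwo`: on each eigenspace `V_s` of a
  maximal subfield of the endomorphism algebra there is a transvection (or a pseudo-reflection which
  is not of order two) conjugation by which is a linear combination of conjugations by elements of
  the Galois group commuting with the endomorphisms (for instance the local monodromy at a place of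
  bad reduction with toric rank one), or some such element acts on `V_s` with eigenvalues in just
  two classes, of coprime multiplicities (for instance a Frobenius element with two slopes).

**Nothing at all is supposed about `B`.** A Tate form of degree `m` is a multilinear form in `2 m`
variables on the Tate module `V = V_ℓ(X)` which is multiplied by the `m`-th power of the cyclotomic
character by a subgroup of finite index of the Galois group (`IsTate`). Tate classes on the powers of
`X`, in all degrees, are combinations of Tate forms: the cohomology of `X ^ n` is the exterior algebra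
of the dual of `V ^ n`. We show:

1. Each Tate form on `V(X)` is a linear combination of products of forms `ω (f u) v` (`ω` is the Weil
   pairing given by the polarization, `f` an endomorphism of `X`), and of one Tate form on `V(B)`
   (`IsProduct`, `IsCombination`). So the Tate classes on the powers of `X` are generated by the classes of divisors
   and the Tate classes on the powers of `B`.
2. Therefore **the Tate conjecture is true for all powers of `A × B` (and the varieties dominated by
   them) if and only if it is true for all powers of `B`**: if a theory of algebraic forms contains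
   the forms given by divisors and is closed under products (`IsAlgebraicTheory`), then it contains all Tate
   forms on `X` if and only if it contains all Tate forms on `B`.

The Tate conjecture or the Mumford-Tate conjecture is not supposed for anything, so `B` may have Tate
classes which are not known to be Hodge classes. In particular there are no new Tate classes on
`A ^ n × B ^ m` which come from a common factor of the Lie algebras of the monodromy groups of `A` and `B`
(or from representations of the group of `B` which look like those of `A`, as in the example of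
Mumford).

The proof. Let `L` be the Lie algebra of endomorphisms of `ℂ ⊗ V` generated by the Hodge-Tate elements.
For each factor `Y` of `A` it contains (up to the centre) the symplectic Lie algebras of the spaces
`V_s(Y)`, acting as zero on all irreducible submodules of `V(X)` not isomorphic to `V_s(Y)`: since all
Hodge-Tate elements have only two eigenvalues, and act on `V_s(Y)` not by scalars. Divide the variables
of a Tate form into two sets `S` and `S'`, put vectors of `V(A)` in `S`, and fix vectors of `V(B)` in
`S'`. The resulting form is invariant under these symplectic Lie algebras, which act as zero on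
`V(B)`. By the first fundamental theorem of invariant theory and descent from `ℂ` to `ℚ_ℓ` it is a
combination of products of forms `E (f u) v` with rational coefficients of the bilinear forms. Let
these vectors of `V(B)` vary: the coefficients, for a suitable basis, are Tate forms on `V(B)`.
-/

namespace Pool.Agent.Results.MP_7b53ad_ag.ArbitraryCofactor

open Module Pool.Agent.Y90 Pool.Agent.R915 Pool.Agent.N183.U8 Pool.Agent.N183.U9 TensorProduct
open Pool.Agent.Y224.TS.St (IsTateModule)
open Pool.Agent.H204R3.SP (IsTate)

/-- The Tate module `K ⊗ H_1(X, ℚ)`, `K = ℚ_ℓ`. -/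
abbrev Vl (K : Type) [Field K] [CharZero K] (X : AV) : Type := K ⊗[ℚ] X.H

/-- The multilinear forms on the Tate module, in variables indexed by `κ`. -/
abbrev Form (K : Type) [Field K] [CharZero K] (X : AV) (κ : Type) : Type :=
  MultilinearMap K (fun _ : κ => Vl K X) K

section

variable {K : Type} [Field K] [CharZero K] {X : AV}

/-- A subgroup of finite index acts on the form `ψ` through the power of `χ` with exponent `j`. -/
def IsTateOn {Γ : Type} [Group Γ] (ρ : Representation K Γ (Vl K X)) (χ : Γ →* K) (j : ℕ)
    {κ : Type} (ψ : Form K X κ) : Prop :=
  ∃ Δ : Subgroup Γ, Δ.FiniteIndex ∧ ∀ g ∈ Δ, ∀ w, ψ (fun k => ρ g (w k)) = χ g ^ j * ψ w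

/-- The form `ψ` depends only on the images of the vectors under the projection `p` on `B`. -/
def OnB (p : Module.End ℚ X.H) {κ : Type} (ψ : Form K X κ) : Prop :=
  ∀ w, ψ (fun k => bc K p (w k)) = ψ w

/-- `ω` is the extension of the rational bilinear form `E` to `K ⊗ H_1(X, ℚ)`. -/
def Extends (E : X.H → X.H → ℚ) (ω : Vl K X →ₗ[K] Vl K X →ₗ[K] K) : Prop :=
  ∀ u v : X.H, ω (1 ⊗ₜ u) (1 ⊗ₜ v) = ((E u v : ℚ) : K)

/-- The value of the product of the forms `ω (f i u) v` of the pairs of variables `(i, 0)`, `(i, 1)`. -/
noncomputable def divProd (ω : Vl K X →ₗ[K] Vl K X →ₗ[K] K) {n : ℕ}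
    (f : Fin n → Module.End ℚ X.H) (x : Fin n × Fin 2 → Vl K X) : K :=
  ∏ i, ω (bc K (f i) (x (i, 0))) (x (i, 1))

/-- `F` is the product of the forms `ω (f u) v`, over pairs of variables which make up a set `S` of
variables, and of a Tate form `ψ` of degree `m - n` on `B` in the other variables. -/
def IsProduct {Γ : Type} [Group Γ] (p : Module.End ℚ X.H) (ρ : Representation K Γ (Vl K X))
    (χ : Γ →* K) (ω : Vl K X →ₗ[K] Vl K X →ₗ[K] K) (m : ℕ)
    (F : (Fin m × Fin 2 → Vl K X) → K) : Prop :=
  ∃ (S : Finset (Fin m × Fin 2)) (n : ℕ) (s : Fin n × Fin 2 ≃ {k // k ∈ S})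
    (f : Fin n → Module.End ℚ X.H) (ψ : Form K X {k // k ∉ S}),
    (∀ i, IsHom X X (f i)) ∧ IsTateOn ρ χ (m - n) ψ ∧ OnB p ψ ∧
      ∀ x, F x = divProd ω f (fun k => x (s k)) * ψ (fun k => x k)

/-- The form `φ` is a linear combination of such products. -/
def IsCombination {Γ : Type} [Group Γ] (p : Module.End ℚ X.H) (ρ : Representation K Γ (Vl K X))
    (χ : Γ →* K) (ω : Vl K X →ₗ[K] Vl K X →ₗ[K] K) (m : ℕ) (φ : Form K X (Fin m × Fin 2)) : Prop :=
  ⇑φ ∈ Submodule.span K {F | IsProduct p ρ χ ω m F}

/-- The space `A m` of forms in `2 m` variables, for each `m`. -/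
abbrev Spaces (K : Type) [Field K] [CharZero K] (X : AV) : Type :=
  ∀ m : ℕ, Submodule K (Form K X (Fin m × Fin 2))

/-- The function `F` is an element of `A m`. -/
def Has (A : Spaces K X) (m : ℕ) (F : (Fin m × Fin 2 → Vl K X) → K) : Prop :=
  ∃ H ∈ A m, ∀ x, H x = F x

/-- The forms `ω (f u) v` belong to `A 1`. -/
def HasDivisors (ω : Vl K X →ₗ[K] Vl K X →ₗ[K] K) (A : Spaces K X) : Prop :=
  ∀ f : Module.End ℚ X.H, IsHom X X f →
    Has A 1 (fun x => ω (bc K f (x (0, 0))) (x (0, 1)))

/-- The product of two forms, the variables being divided in any way, belongs to the spaces. -/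
def HasProducts (A : Spaces K X) : Prop :=
  ∀ {n l m : ℕ} (e : (Fin n × Fin 2) ⊕ (Fin l × Fin 2) ≃ Fin m × Fin 2), ∀ F ∈ A n, ∀ G ∈ A l,
    Has A m (fun x => F (fun k => x (e (Sum.inl k))) * G (fun k => x (e (Sum.inr k))))

/-- The properties of the spaces of the forms which are given by algebraic cycles on the powers of
`X`: they contain `1` and the forms `ω (f u) v`, given by divisors on `X × X`, and products. -/
structure IsAlgebraicTheory (ω : Vl K X →ₗ[K] Vl K X →ₗ[K] K) (A : Spaces K X) : Prop where
  one : Has A 0 (fun _ => 1)
  divisor : HasDivisors ω A
  product : HasProducts A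

theorem Extends.unique {E : X.H → X.H → ℚ} {ω ω' : Vl K X →ₗ[K] Vl K X →ₗ[K] K}
    (h : Extends E ω) (h' : Extends E ω') : ω = ω' := by
  have hs : ∀ (c : K) (v : X.H), c ⊗ₜ[ℚ] v = c • ((1 : K) ⊗ₜ[ℚ] v) := fun c v => by
    rw [TensorProduct.smul_tmul', smul_eq_mul, mul_one]
  refine LinearMap.ext fun x => LinearMap.ext fun y => ?_
  induction x using TensorProduct.induction_on with
  | zero => rw [map_zero, map_zero]
  | tmul c u =>
    induction y using TensorProduct.induction_on with
    | zero => rw [map_zero, map_zero]
    | tmul d v =>
      rw [hs c, hs d, map_smul, map_smul, map_smul, map_smul, LinearMap.smul_apply,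
        LinearMap.smul_apply, h, h']
    | add y y' hy hy' => rw [map_add, map_add, hy, hy']
  | add x x' hx hx' => rw [map_add, map_add, LinearMap.add_apply, LinearMap.add_apply, hx, hx']

end

/-- **Tate classes on the powers of `A × B`.** Let `X` be an abelian variety (given as a complex
abelian variety) with a polarization `E`, `ρ` the representation of the Galois group on
`K ⊗ H_1(X, ℚ)`, `K = ℚ_ℓ`, with the known properties of the Tate module (`IsTateModule`, `χ` is the
cyclotomic character; the algebra structure of `ℂ` over `K` is an identification of `ℂ` with an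
algebraic closure of `K`). Let `p` be the projection of `X` on an abelian subvariety `B` up to isogeny,
along an abelian subvariety `A` all simple factors of which belong to the classes above. Then (1) each
Tate form on `X` is a combination of products of the forms `ω (f u) v` and Tate forms on `B`; (2) a
theory of forms which contains the forms `ω (f u) v` and is closed under products contains all Tate
forms on `X` if and only if it contains all Tate forms on `B`. -/
theorem result (X : AV) (E : X.H → X.H → ℚ) (hE : Pool.Agent.Y90.St.IsPolarization X.per E)
    (p : Module.End ℚ X.H) (hp : IsProj X E p) {K : Type} [Field K] [CharZero K] [Algebra K ℂ]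
    [Algebra.IsAlgebraic K ℂ] {Γ : Type} [Group Γ] (ρ : Representation K Γ (Vl K X))
    (χ : Γ →* K) (hρ : IsTateModule X.per E ρ χ) (hA : ∀ Y : AV, IsKerFactor X p Y → GoodI X ρ Y)
    (ω : Vl K X →ₗ[K] Vl K X →ₗ[K] K) (hω : Extends E ω) :
    (∀ m φ, IsTate ρ χ m φ → IsCombination p ρ χ ω m φ) ∧
    ∀ A : Spaces K X, IsAlgebraicTheory ω A →
      ((∀ m φ, IsTate ρ χ m φ → φ ∈ A m) ↔ ∀ m ψ, IsTate ρ χ m ψ → OnB p ψ → ψ ∈ A m) := by
  obtain ⟨ω', hω', hωρ⟩ := hρ.weil
  obtain rfl : ω = ω' := hω.unique hω'
  have k : IsCompl' X E ρ p := by
    refine ⟨hp.hom, hp.idem, fun f hf => (hp.cent f hf).symm, hp.symm, fun Y hY hi => ?_⟩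
    obtain ⟨i, hi, h0⟩ := hi
    refine hA Y ⟨hY, (1 - p) ∘ₗ i, R915.IsHom.comp' hp.hom' hi, fun h1 => h0 ?_, ?_⟩
    · rw [LinearMap.sub_comp] at h1
      exact (sub_eq_zero.1 h1).symm
    · rw [← LinearMap.comp_assoc, ← Module.End.mul_eq_comp, mul_sub, mul_one, hp.idem, sub_self,
        LinearMap.zero_comp]
  exact ⟨fun m φ hφ => dec_all hE hρ k hω hωρ hφ, fun A hA' => alg_iff hE hρ k hω hωρ
    ⟨hA'.one, hA'.divisor, hA'.product⟩⟩

end Pool.Agent.Results.MP_7b53ad_ag.ArbitraryCofactor
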