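import Mathlib
import Pool.Agent.N166.TT.Main

/-!
# The Tate conjecture over function fields for products with almost all constant abelian varieties

Let `g i` (`i` in a finite set `I`) be positive integers, `r` an integer smaller than all the `g i`
and `E` a number field.  For a prime power `q` let `S i` be the set of the characteristic
polynomials of Frobenius of the ordinary abelian varieties of dimension `g i` over the field with `q`
elements, or of all abelian varieties of dimension `g i`, or any set in between.  By Weil, Honda and
Tate its elements correspond to the isogeny classes, the first set contains `ordinaryWeilPolys q
(g i)`, and the second one is contained in `weilPolys q (g i)`.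

For all families `f i` in `S i` with the exception of a proportion `O (q ^ (-1 / 6) log q)`, the
constant depending only on `g` and `E`, the following holds for all `s > 0`, all abelian varieties
`A` over the field `k` with `q ^ s` elements, isogenous to products of powers of abelian varieties
coming from the field with `q` elements with characteristic polynomials `f i`, and **all** smooth
projective varieties `Y` over `k` such that the eigenvalues of Frobenius on the cohomology of `Y` and
their conjugates generate a group of rank at most `r` modulo the group of the numbers with a power
in `E`.

Let `K` be the function field of any variety `S` over `k` (a finitely generated field of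
characteristic `p` of any transcendence degree), let `B` be an abelian variety over `K`, **in general
not constant**, the generic fibre of a morphism `Y → S` (`B` may be any smooth projective variety
with such a model), and let `A_K` be the constant abelian variety over `K`. **Then the Tate
conjectures for the abelian varieties `A_K × B` and `B` are equivalent:** there are products `D_a` of
divisors on `A_K` such that the algebraic cycles on `A_K × B`, modulo homological equivalence, are
the sums of the `D_a × z_a` with cycles `z_a` on `B`, and the Galois-invariant classes in the
cohomology `H^{2i}(A_K × B)(i)` are the sums of the `D_a × h_a` with invariant classes on `B`, in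
a unique way. The invariants are linear combinations of classes of cycles, for `i`, if and only if
this is the case for `B` in the codimensions `m` with `i - dim A ≤ m ≤ i`; and the rank of the group
of cycles of codimension `i` modulo homological equivalence is equal to the dimension of the space of
invariants for `A_K × B` and all `i` if and only if this holds for `B` and all `i`.

For instance the invariant classes on `A_K × B` are combinations of classes of cycles, `A` of arbitrary
dimension, if `B` is an abelian variety of dimension at most three over `K` with a model of small
Frobenius rank (by the theorem of Zarhin on divisors and the hard Lefschetz theorem for `B`).

The idea of the proof: by a sieve (helper521) almost all families are such that each pair `α`,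
`q / α` of roots can be exchanged by a Galois automorphism which fixes all the other roots and the
elements of `E`. By helper484 it follows that the generalized eigenvectors of Frobenius for powers of
`q ^ s` in the cohomology of `A × Y` are combinations of products of intersections of
divisors on `A` with classes on `Y`. By the theorem of Deligne on invariant cycles the invariant
classes on `A_K × B` are restrictions of such generalized eigenvectors. The coefficients are
obtained by means of dual cycles on `A`, so that they are again invariant, or classes of cycles.
-/

set_option autoImplicit false

namespace Pool.Agent.Results.MP_7b53ad_ag.ConstantAbelianFactors

open Polynomial Pool.Agent.W521.Descent Pool.Agent.W521.Count Pool.Agent.W484.TB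
  Pool.Agent.N166.TT

/-- `weilPolys q g` is the set of monic integral polynomials of degree `2 g` with constant term
`q ^ g` and all roots of absolute value `√q`; `ordinaryWeilPolys q g` is the subset of those
whose coefficient of index `g` is prime to `q`. -/
theorem result {I : Type} [Fintype I] (g : I → ℕ) (r : ℕ) (hr : ∀ i, r < g i)
    (E : IntermediateField ℚ ℂ) [FiniteDimensional ℚ E] :
    ∃ C : ℝ, ∀ q : ℕ, IsPrimePow q → ∀ S : I → Set ℤ[X],
      (∀ i, ordinaryWeilPolys q (g i) ⊆ S i ∧ S i ⊆ weilPolys q (g i)) →
      (∀ i, (S i).Finite ∧ (S i).Nonempty) ∧
      ({f : I → ℤ[X] | (∀ i, f i ∈ S i) ∧ ¬ N166.TT.TateForRankOver E q r f}.ncard : ℝ) ≤
        C * (Real.log q * (q : ℝ) ^ (-(1 / 6) : ℝ)) * ∏ i, ((S i).ncard : ℝ) :=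
  count_of_goodU (splitPrimes E) (dense_splitPrimes E) g
    (fun i => (Nat.zero_le r).trans_lt (hr i)) (fun q f => N166.TT.TateForRankOver E q r f)
    fun _ hq x hx => N166.TT.tateForRankOver_of_good g E hq.one_lt r hr x hx

end Pool.Agent.Results.MP_7b53ad_ag.ConstantAbelianFactors
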