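import Mathlib
import Pool.Agent.N171.Bg8

/-!
# The Tate conjecture for products of Jacobians with large Galois groups and any abelian variety

`K` is any field of characteristic different from two (it need not be finitely generated) and `F` an
algebraic closure of `K`.  Let `f i`, for `i` in a finite set, be monic separable polynomials of odd
degrees `n i ≥ 7` over `K` whose Galois groups are symmetric or alternating groups, and such that no
splitting field of an `f i` is contained in the splitting field of an `f j` with `j ≠ i`.  Let `J i` be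
the Jacobian of the hyperelliptic curve `y ^ 2 = f i (x)`; the group `J i (F)` is the class group of the
coordinate ring `F[x, y]` of the affine curve (the curve has one point at infinity), with the action of
the Galois group on the coefficients, and `V` is the rational 2-adic Tate module of `J = ∏ i, J i`.

`W` is any finite dimensional 2-adic representation of the Galois group of `K` with a stable lattice
`L`, for instance `W = H ^ i (Z, ℚ_2) (c)` for an abelian variety (or any smooth projective variety) `Z`
over `K`.  It is related to the curves only by the condition that no splitting field of an `f i` is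
contained in the field generated by the action on `L / 2`; this holds automatically as soon as
`(n i)! > 2 ^ (d ^ 2 + 1)` with `d = dim W`.

The conclusion: all Tate classes on the powers `V ^ n` with values in `W`, that is all Tate classes in
`H ^ a (J ^ n) ⊗ H ^ i (Z) (c)`, are linear combinations of the products of the classes of divisors
`ω i (v p, w q) + ω i (v q, w p)` of `J ^ n` and of Tate classes of `Z`; there are none if `a` is odd.
So the Tate conjecture for `ℓ = 2` and all the varieties `∏ i, (J i) ^ (m i) × Z`, in all degrees, is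
equivalent to the Tate conjecture for `Z`.  No property of the curves at any place is used and there is
no condition on the points of order four.
-/

set_option autoImplicit false

namespace Pool.Agent.Results.MP_7b53ad_ag.LargeGaloisGroups

open TensorProduct Polynomial Pool.Agent.H204R3.GP Pool.Agent.N171

/-- The automorphisms of `F` over `K` induce all the even permutations of the roots of `f`. -/
def BigGal {K : Type*} [Field K] (f : K[X]) (F : Type*) [Field F] [Algebra K F] : Prop :=
  open Classical in ∀ π : Equiv.Perm (f.rootSet F), Equiv.Perm.sign π = 1 →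
    ∃ s : F ≃ₐ[K] F, ∀ x : f.rootSet F, s (x : F) = (π x : F)

/-- The splitting field of `f` is not contained in the splitting field of `g`: some automorphism fixes
the roots of `g` and moves a root of `f`. -/
def NotIn {K : Type*} [Field K] (f g : K[X]) (F : Type*) [Field F] [Algebra K F] : Prop :=
  ∃ s : F ≃ₐ[K] F, (∀ x ∈ g.rootSet F, s x = x) ∧ ∃ x ∈ f.rootSet F, s x ≠ x

/-- The representation on `W` has a stable lattice `L`, of rank `d`, over the 2-adic integers such that
for all `i` either `2 ^ (d ^ 2 + 1)` is less than the factorial of the degree of `f i`, or the splitting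
field of `f i` is not contained in the field given by the action on `L / 2`. -/
def Free {K F ι W : Type*} [Field K] [Field F] [Algebra K F] [AddCommGroup W] [Module ℚ_[2] W]
    (f : ι → K[X]) (τ : Representation ℚ_[2] (F ≃ₐ[K] F) W) : Prop :=
  ∃ (d : ℕ) (b : Module.Basis (Fin d) ℚ_[2] W), (∀ s, TrivMod b (τ s) 0) ∧
    ∀ i, 2 ^ (d ^ 2 + 1) < (f i).natDegree.factorial ∨
      ∃ s : F ≃ₐ[K] F, TrivMod b (τ s) 1 ∧ ∃ x ∈ (f i).rootSet F, s x ≠ x

/-- The Tate classes on the powers `V ^ n` with values in `W` are zero in odd degrees, and in even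
degrees they are the linear combinations of the forms `g • w`, where `g` is a wedge product of forms
`ω q (v i) (w j) + ω q (v j) (w i)` and `w` is a Tate class of `W`. -/
def Splits {k V W Γ Q : Type*} [Field k] [AddCommGroup V] [Module k V] [AddCommGroup W] [Module k W]
    [Group Γ] (ρ : Representation k Γ V) (χ : Γ →* k) (ω : Q → V →ₗ[k] V →ₗ[k] k)
    (τ : Representation k Γ W) : Prop :=
  (∀ (n a : ℕ) (f : (Fin n → V) [⋀^Fin a]→ₗ[k] W), Odd a → IsTateV ρ τ f → f = 0) ∧
  ∀ (n m : ℕ) (f : (Fin n → V) [⋀^Fin m × Fin 2]→ₗ[k] W),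
    IsTateV ρ τ f ↔ f ∈ Submodule.span k {h | IsProdW χ τ ω h}

universe w

/-- **The Tate classes on the products of powers of Jacobians with large Galois groups with any
variety.** -/
theorem result {K F ι : Type*} [Field K] [Field F] [Algebra K F] [IsAlgClosure K F] [Finite ι]
    [Nonempty ι] (f : ι → K[X]) [∀ i, HypP (f i)] (h7 : ∀ i, 7 ≤ (f i).natDegree)
    (hG : ∀ i, BigGal (f i) F) (hd : ∀ i j, j ≠ i → NotIn (f i) (f j) F) :
    ∃ ω : ∀ i, Vt (JacP (f i) F) →ₗ[ℚ_[2]] Vt (JacP (f i) F) →ₗ[ℚ_[2]] ℚ_[2],
      (∀ i, IsWeil (vRep (JacP (f i) F) (F ≃ₐ[K] F)) (cycQ K F) (ω i)) ∧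
      ∀ (W : Type w) [AddCommGroup W] [Module ℚ_[2] W] (τ : Representation ℚ_[2] (F ≃ₐ[K] F) W),
        Free f τ → Splits (vRep (JPi f F) (F ≃ₐ[K] F)) (cycQ K F) (fun i => pullP f F i (ω i)) τ := by
  classical
  have hfin : Fintype ι := Fintype.ofFinite ι
  have hF : IsAlgClosed F := IsAlgClosure.isAlgClosed K
  have hsp : ∀ i, ((f i).map (algebraMap K F)).Splits := fun i => IsAlgClosed.splits _
  have hm : ∀ i, ((f i).map (algebraMap K F)).Monic := fun i => (HypP.monic (f := f i)).map _
  have hnd : ∀ i, ((f i).aroots F).Nodup := fun i => nodup_roots (HypP.sep (f := f i)).map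
  have hcard : ∀ i, Fintype.card ((f i).rootSet F) = (f i).natDegree := fun i =>
    card_rootSet_eq_natDegree (HypP.sep (f := f i)) (hsp i)
  obtain ⟨i₀⟩ := ‹Nonempty ι›
  have h2 : (2 : F) ≠ 0 := by
    have h1 : (2 : F) = algebraMap K F 2 := by rw [map_ofNat]
    rw [h1, Ne, map_eq_zero]
    exact HypP.two (f := f i₀)
  have hyp : ∀ i, Hyp (fun x : (f i).rootSet F => (x : F)) := fun i =>
    { inj := Subtype.val_injective
      odd := by
        rw [hcard]
        exact HypP.odd (f := f i)
      two := h2 }
  have hα : ∀ i, (f i).map (algebraMap K F) = fP (fun x : (f i).rootSet F => (x : F)) := by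
    intro i
    rw [(hsp i).eq_prod_roots_of_monic (hm i), fP]
    have h1 : ∏ x ∈ ((f i).aroots F).toFinset, (X - C x) = ∏ x : (f i).rootSet F, (X - C (x : F)) :=
      Finset.prod_subtype _ (fun x => Iff.rfl) _
    rw [← h1, Finset.prod, Multiset.toFinset_val, Multiset.Nodup.dedup (hnd i)]
  obtain ⟨ω, hω, h⟩ := Bg.splits_P.{w} (K := K) (F := F) (fun i => (f i).map (algebraMap K F))
    (fun i => rf_fix (f i)) (fun i (x : (f i).rootSet F) => (x : F)) hα h2
    (fun i => by rw [hcard]; exact (by norm_num : 6 ≤ 7).trans (h7 i)) (fun i π hπ => by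
      obtain ⟨s, hs⟩ := hG i π (by convert! hπ)
      exact ⟨s, hs⟩) (fun i j hij => by
      obtain ⟨s, hs, x, hx, hsx⟩ := hd i j hij
      exact ⟨s, fun k => hs k k.2, ⟨x, hx⟩, hsx⟩)
  refine ⟨ω, hω, fun W _ _ τ hτ => ?_⟩
  have hfr : Bg.FreeG (fun i (x : (f i).rootSet F) => (x : F)) τ := by
    obtain ⟨d, b, hb, h1⟩ := hτ
    refine ⟨d, b, hb, fun i => ?_⟩
    rcases h1 i with h1 | ⟨s, hs, x, hx, hsx⟩
    · exact Or.inl (by rw [hcard]; exact h1)
    · exact Or.inr ⟨s, hs, ⟨x, hx⟩, hsx⟩
  obtain ⟨h3, h4⟩ := h W τ hfr (Vt (JPi f F)) (vRep (JPi f F) (F ≃ₐ[K] F)) (Bg.vE F f)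
    (Bg.vS F f) (Bg.vE_vS f) (Bg.vE_act f) (fun i => pullP f F i (ω i)) (fun i x y => by
      change ω i (vMap (prP f F i) _) (vMap (prP f F i) _) = _
      rw [Bg.vE_pr, Bg.vE_pr])
  exact ⟨h3, fun n m g => ⟨h4 n m g, fun hg =>
    tateV_span (fun i s u v => Bg.pullP_inv f (hω i) s u v) hg⟩⟩

end Pool.Agent.Results.MP_7b53ad_ag.LargeGaloisGroups
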