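import Pool.Agent.N90.CZ.Bridge
import Pool.Agent.N90.CZ.Types2

/-!
# The Tate conjecture for powers of abelian varieties over number fields: exotic classes can appear
# exponentially late

For arbitrarily large `s` there is a CM field `E` of degree `2 g`, `g = s ^ 2`, and a primitive CM
type `Φ` such that for all abelian varieties `A` with complex multiplication of type `(E, Φ)` over
number fields (they are simple, of dimension `g`) and all primes `ℓ` the Tate classes of codimension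
`d` on `A ^ r` are generated by divisors if `r` or `d` is smaller than `3 * 2 ^ (s - 6) / s`, but
there are other Tate classes on `A ^ r` for all `r ≥ 2 ^ (s - 6)`.
-/

set_option autoImplicit false

namespace Pool.Agent.Results.MP_7b53ad_ag.LateExoticPowersOverNumberFields

open NumberField Module Pool.Agent.H204R3.CM Pool.Agent.N90.CZS
open scoped TensorProduct

/-- **Late exotic powers over number fields.** -/
theorem result (G : ℕ) :
    ∃ (E : Type) (_ : Field E) (_ : NumberField E) (_ : IsCMField E) (Φ : Set (E →+* ℂ)) (s : ℕ),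
      G ≤ s ∧ finrank ℚ E = 2 * s ^ 2 ∧ IsCMType Φ ∧ IsPrimitive Φ ∧
      ∀ (ℓ : ℕ) [Fact ℓ.Prime] (Γ : Type) [Group Γ] [TopologicalSpace Γ] [IsTopologicalGroup Γ]
        (ρ : Γ →* ℚ_[ℓ] ⊗[ℚ] E) (χ : Γ →* ℚ_[ℓ]), IsCMRepresentation ℓ E Φ ρ χ →
        (∀ r d : ℕ, s * min r d < 3 * 2 ^ (s - 6) → TateGeneratedIn (galois ρ r) χ d) ∧
        (∀ r : ℕ, 2 ^ (s - 6) ≤ r → ∃ d : ℕ, ¬ TateGeneratedIn (galois ρ r) χ d) := by
  obtain ⟨m, hm2, hmG⟩ : ∃ m, 2 ≤ m ∧ G ≤ 2 ^ m := by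
    refine ⟨max 2 G, le_max_left _ _, ?_⟩
    exact Nat.lt_two_pow_self.le.trans (Nat.pow_le_pow_right (by norm_num) (le_max_right _ _))
  obtain ⟨E, i1, i2, i3, Φ, hΦ, hsep, hfin, hgen, hnot⟩ :=
    Pool.Agent.N90.CZ.types2 (k := 2) hm2 le_rfl
  have h4 : 4 ≤ 2 ^ m := by
    calc 4 = 2 ^ 2 := by norm_num
      _ ≤ 2 ^ m := Nat.pow_le_pow_right (by norm_num) hm2
  have h8 : (3 ^ 2 - 1) ^ (2 ^ m - 2) = 2 ^ (3 * 2 ^ m - 6) := by
    have h1 : 3 * 2 ^ m - 6 = 3 * (2 ^ m - 2) := by omega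
    rw [h1, pow_mul]
    norm_num
  rw [h8] at hgen hnot
  refine ⟨E, i1, i2, i3, Φ, 3 * 2 ^ m, by omega, ?_, hΦ, fun φ φ' h => ?_, ?_⟩
  · rw [hfin]
    have h9 : (4 : ℕ) ^ m = (2 ^ m) ^ 2 := by
      rw [← pow_mul, mul_comm, pow_mul]
      norm_num
    rw [h9]
    ring
  · have h1 := hsep ⟨(), φ⟩ ⟨(), φ'⟩ h
    simpa using h1
  intro ℓ _ Γ _ _ _ ρ χ hρχ
  constructor
  · intro r d hr
    rw [Pool.Agent.N90.CZ.generated_iff' hΦ hsep hρχ]
    refine hgen r d ?_
    rw [mul_assoc] at hr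
    omega
  · intro r hr
    by_contra hcon
    push Not at hcon
    refine hnot r hr fun m => ?_
    have h1 := hcon m
    rw [Pool.Agent.N90.CZ.generated_iff' hΦ hsep hρχ] at h1
    exact h1

end Pool.Agent.Results.MP_7b53ad_ag.LateExoticPowersOverNumberFields
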